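import Pool.Agent.Helper3.AK.Goals4

/-! # Packet AK-EXT: number of even permutations with prescribed values -/

set_option autoImplicit false

namespace Pool.Agent.Helper3.AK

open Equiv

/-- all permutations with prescribed values -/
theorem card_perm_ext (n : ℕ) (A : Finset (Fin n × Fin n))
    (h1 : ∀ a ∈ A, ∀ b ∈ A, a.1 = b.1 → a = b) (h2 : ∀ a ∈ A, ∀ b ∈ A, a.2 = b.2 → a = b) :
    Nat.card {g : Perm (Fin n) // ∀ a ∈ A, g a.1 = a.2} = (n - A.card).factorial := by
  classical
  let f : A → Fin n := fun a => a.1.1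
  let g : A → Fin n := fun a => a.1.2
  have hf : Function.Injective f := fun a b h => Subtype.ext (h1 a.1 a.2 b.1 b.2 h)
  have hg : Function.Injective g := fun a b h => Subtype.ext (h2 a.1 a.2 b.1 b.2 h)
  let e₀ : Set.range f ≃ Set.range g := (Equiv.ofInjective f hf).symm.trans (Equiv.ofInjective g hg)
  have he₀ : ∀ a : A, (e₀ ⟨f a, a, rfl⟩ : Fin n) = g a := by
    intro a
    have : (⟨f a, a, rfl⟩ : Set.range f) = Equiv.ofInjective f hf a := rfl
    simp only [e₀, this, Equiv.trans_apply, Equiv.symm_apply_apply]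
    rfl
  have e1 : {g : Perm (Fin n) // ∀ a ∈ A, g a.1 = a.2} ≃
      {e : Fin n ≃ Fin n // ∀ x : Set.range f, e x = e₀ x} := by
    refine Equiv.subtypeEquivRight fun e => ?_
    constructor
    · rintro h ⟨_, a, rfl⟩
      rw [he₀]
      exact h a.1 a.2
    · intro h a ha
      have := h ⟨f ⟨a, ha⟩, ⟨a, ha⟩, rfl⟩
      rw [he₀] at this
      exact this
  rw [Nat.card_congr (e1.trans (Equiv.Set.compl e₀)), Nat.card_eq_fintype_card]
  have hc : ∀ (k : A → Fin n), Function.Injective k →
      Fintype.card ((Set.range k)ᶜ : Set (Fin n)) = n - A.card := by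
    intro k hk
    rw [Fintype.card_compl_set, Fintype.card_fin, Set.card_range_of_injective hk,
      Fintype.card_coe]
  have e2 : ((Set.range f)ᶜ : Set (Fin n)) ≃ ((Set.range g)ᶜ : Set (Fin n)) :=
    Fintype.equivOfCardEq (by rw [hc f hf, hc g hg])
  rw [Fintype.card_equiv e2, hc f hf]

/-- **EXT** -/
theorem ext : S_EXT := by
  intro n A h1 h2 hA
  classical
  rw [← card_perm_ext n A h1 h2]
  -- two points outside
  have h3 : 1 < ((A.image Prod.snd)ᶜ).card := by
    rw [Finset.card_compl, Fintype.card_fin]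
    have := Finset.card_image_le (s := A) (f := Prod.snd)
    omega
  obtain ⟨u, hu, v, hv, huv⟩ := Finset.one_lt_card.1 h3
  have hu' : ∀ a ∈ A, a.2 ≠ u := fun a ha h => by
    rw [Finset.mem_compl] at hu
    exact hu (h ▸ Finset.mem_image_of_mem Prod.snd ha)
  have hv' : ∀ a ∈ A, a.2 ≠ v := fun a ha h => by
    rw [Finset.mem_compl] at hv
    exact hv (h ▸ Finset.mem_image_of_mem Prod.snd ha)
  let F : Type := {g : Perm (Fin n) // ∀ a ∈ A, g a.1 = a.2}
  have hs : ∀ g : Perm (Fin n), (∀ a ∈ A, g a.1 = a.2) → ∀ a ∈ A, (swap u v * g) a.1 = a.2 := by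
    intro g hg a ha
    rw [Perm.mul_apply, hg a ha, swap_apply_of_ne_of_ne (hu' a ha) (hv' a ha)]
  have hss : ∀ g : Perm (Fin n), swap u v * (swap u v * g) = g := fun g => by
    rw [← mul_assoc, swap_mul_self, one_mul]
  have e1 : {g : F // g.1 ∈ alternatingGroup (Fin n)} ≃ {g : F // ¬ g.1 ∈ alternatingGroup (Fin n)} :=
    { toFun := fun g => ⟨⟨swap u v * g.1.1, hs _ g.1.2⟩, by
        have h4 := g.2
        rw [Perm.mem_alternatingGroup] at h4 ⊢
        simp only [Perm.sign_mul, Perm.sign_swap huv, h4]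
        decide⟩
      invFun := fun g => ⟨⟨swap u v * g.1.1, hs _ g.1.2⟩, by
        have h4 := g.2
        rw [Perm.mem_alternatingGroup] at h4 ⊢
        simp only [Perm.sign_mul, Perm.sign_swap huv]
        rcases Int.units_eq_one_or (Perm.sign g.1.1) with h5 | h5
        · exact absurd h5 h4
        · rw [h5]; decide⟩
      left_inv := fun g => Subtype.ext (Subtype.ext (hss _))
      right_inv := fun g => Subtype.ext (Subtype.ext (hss _)) }
  have e2 : {g : F // g.1 ∈ alternatingGroup (Fin n)} ≃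
      {g : Alt n // ∀ a ∈ A, (g : Perm (Fin n)) a.1 = a.2} :=
    { toFun := fun g => ⟨⟨g.1.1, g.2⟩, g.1.2⟩
      invFun := fun g => ⟨⟨g.1.1, g.2⟩, g.1.2⟩
      left_inv := fun g => rfl
      right_inv := fun g => rfl }
  have h4 : Nat.card F = Nat.card {g : F // g.1 ∈ alternatingGroup (Fin n)} +
      Nat.card {g : F // ¬ g.1 ∈ alternatingGroup (Fin n)} := by
    rw [← Nat.card_sum]
    exact Nat.card_congr (Equiv.sumCompl _).symm
  change _ = Nat.card F
  rw [h4, ← Nat.card_congr e1, Nat.card_congr e2]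
  ring

end Pool.Agent.Helper3.AK
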